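import Mathlib
import Pool.Agent.H92.Lac7

set_option autoImplicit false

namespace Pool.Agent.Results.MP_7c2ef8_co.LacunaryPolynomial

/-- A two sided sequence `x` is nonrepetitive: there are no `m` and `n ≥ 1` with
`x (m + i) = x (m + n + i)` for all `i = 1, ..., n`. -/
def Nonrepetitive {C : Type} (x : ℤ → C) : Prop :=
  ¬ ∃ (m : ℤ) (n : ℕ), 1 ≤ n ∧ ∀ i : ℕ, 1 ≤ i → i ≤ n → x (m + i) = x (m + n + i)

/-- A colouring `c` of the integers is `K`-nonrepetitive: for every `d ∈ K` and every integer `a`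
the sequence `j ↦ c (a + j d)` is nonrepetitive. -/
def KNonrepetitive {C : Type} (K : Set ℕ) (c : ℤ → C) : Prop :=
  ∀ d ∈ K, ∀ a : ℤ, Nonrepetitive (fun j : ℤ => c (a + j * (d : ℤ)))

/-- `π(K)`: the least number of colours used by a `K`-nonrepetitive colouring of the integers
(possibly infinite). A colouring of the integers uses at most countably many colours,
so that colours in `ℕ` suffice. -/
noncomputable def nonrepNumber (K : Set ℕ) : ℕ∞ :=
  ⨅ c : {c : ℤ → ℕ // KNonrepetitive K c}, (Set.range c.1).encard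

/-- `K = {k 0 < k 1 < k 2 < ...}` is an infinite set of positive integers with
`k (i + 1) / k i > 1 + δ` for every `i`. -/
def LacunaryWith (δ : ℝ) (K : Set ℕ) : Prop :=
  ∃ k : ℕ → ℕ, StrictMono k ∧ 0 < k 0 ∧ Set.range k = K ∧
    ∀ i : ℕ, 1 + δ < (k (i + 1) : ℝ) / (k i : ℝ)

/-- ratios of a lacunary set. -/
lemma ratio {δ : ℝ} {k : ℕ → ℕ} (hk : StrictMono k) (h0 : 0 < k 0)
    (hr : ∀ i : ℕ, 1 + δ < (k (i + 1) : ℝ) / (k i : ℝ)) :
    ∀ a ∈ Set.range k, ∀ b ∈ Set.range k, a < b → (1 + δ) * (a : ℝ) < (b : ℝ) := by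
  rintro _ ⟨i, rfl⟩ _ ⟨j, rfl⟩ hab
  have hij : i < j := hk.lt_iff_lt.mp hab
  have hpos : (0:ℝ) < k i := by
    have : k 0 ≤ k i := hk.monotone (Nat.zero_le i)
    exact_mod_cast lt_of_lt_of_le h0 this
  have h1 := hr i
  rw [lt_div_iff₀ hpos] at h1
  have h2 : k (i + 1) ≤ k j := hk.monotone hij
  have h3 : ((k (i + 1) : ℕ) : ℝ) ≤ k j := by exact_mod_cast h2
  linarith

/-- For an absolute constant `C`: every set `K` of positive integers which is lacunary with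
constant `δ > 0` has `π(K) ≤ C (1 + 1/δ) ^ 72`. In particular `π(K)` is finite for every
lacunary set `K`. -/
theorem result : ∃ C : ℝ, 0 < C ∧ ∀ (δ : ℝ) (K : Set ℕ), 0 < δ → LacunaryWith δ K →
    ∃ N : ℕ, nonrepNumber K ≤ N ∧ (N : ℝ) ≤ C * (1 + 1 / δ) ^ 72 := by
  obtain ⟨C0, hC0, hi⟩ := Pool.Agent.H92.Lac.exists_i0_poly
  refine ⟨3 * C0 * 8192 ^ 18 * 32 ^ 72, by positivity, ?_⟩
  rintro δ K hδ ⟨k, hk, h0, rfl, hr⟩
  have hrat := ratio hk h0 hr
  have hpos : ∀ d ∈ Set.range k, 0 < d := by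
    rintro _ ⟨i, rfl⟩
    exact lt_of_lt_of_le h0 (hk.monotone (Nat.zero_le i))
  set B : ℕ := ⌈16 / δ⌉₊ with hB
  have hB1 : 16 / δ ≤ B := Nat.le_ceil _
  have hB2 : (B:ℝ) < 16 / δ + 1 := Nat.ceil_lt_add_one (by positivity)
  have hB3 : (16:ℝ) < (1 + δ) ^ B := by
    have h1 : 1 + (B:ℝ) * δ ≤ (1 + δ) ^ B := one_add_mul_le_pow (by linarith) B
    rw [div_le_iff₀ hδ] at hB1
    linarith
  obtain ⟨θ, hθ⟩ := Pool.Agent.H92.Lac.exists_theta_unif (Set.range k) hpos δ hδ hrat B hB3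
  set c : ℝ := (1 / (2 * ((B:ℝ) + 1))) ^ 4 / 8192 with hc
  have hcpos : 0 < c := by rw [hc]; positivity
  have hc1 : c ≤ 1 := by
    rw [hc]
    have a1 : 1 / (2 * ((B:ℝ) + 1)) ≤ 1 := by
      rw [div_le_one (by positivity)]
      have : (0:ℝ) ≤ B := Nat.cast_nonneg B
      linarith
    have a2 : (1 / (2 * ((B:ℝ) + 1))) ^ 4 ≤ 1 := pow_le_one₀ (by positivity) a1
    rw [div_le_one (by norm_num)]
    linarith
  obtain ⟨i0, hi04, hi0, hi1⟩ := hi c hcpos hc1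
  obtain ⟨col, hcol⟩ := Pool.Agent.H92.Lac.coloring_explicit (Set.range k) θ c hcpos hθ i0 hi04 hi1
  refine ⟨2 ^ (i0 + 1) * 3, ?_, ?_⟩
  · -- the colouring
    have hK : KNonrepetitive (Set.range k) (fun z : ℤ => ((col z : Fin (2 ^ (i0 + 1) * 3)) : ℕ)) := by
      rintro d hd a ⟨m, n, hn, hrep⟩
      obtain ⟨i, hi, hne⟩ := hcol d hd (a + (m + 1) * (d : ℤ)) n (by omega)
      apply hne
      have h1 := hrep (i + 1) (by omega) (by omega)
      simp only at h1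
      have h2 := Fin.val_injective h1
      have e1 : a + (m + 1) * (d : ℤ) + (i : ℤ) * (d : ℤ) = a + (m + ((i + 1 : ℕ) : ℤ)) * (d : ℤ) := by
        push_cast; ring
      have e2 : a + (m + 1) * (d : ℤ) + ((n : ℤ) + (i : ℤ)) * (d : ℤ)
          = a + (m + (n : ℤ) + ((i + 1 : ℕ) : ℤ)) * (d : ℤ) := by
        push_cast; ring
      rw [e1, e2]
      exact h2
    refine le_trans (iInf_le _ ⟨_, hK⟩) ?_
    have hsub : Set.range (fun z : ℤ => ((col z : Fin (2 ^ (i0 + 1) * 3)) : ℕ)) ⊆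
        ((Finset.range (2 ^ (i0 + 1) * 3) : Finset ℕ) : Set ℕ) := by
      rintro _ ⟨z, rfl⟩
      simp only [Finset.coe_range, Set.mem_Iio]
      exact (col z).isLt
    calc (Set.range (fun z : ℤ => ((col z : Fin (2 ^ (i0 + 1) * 3)) : ℕ))).encard
        ≤ (((Finset.range (2 ^ (i0 + 1) * 3) : Finset ℕ) : Set ℕ)).encard := Set.encard_le_encard hsub
      _ = ((2 ^ (i0 + 1) * 3 : ℕ) : ℕ∞) := by
          rw [Set.encard_coe_eq_coe_finsetCard, Finset.card_range]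
  · -- the bound
    have b1 : (((2 ^ (i0 + 1) * 3 : ℕ)) : ℝ) = 3 * 2 ^ (i0 + 1) := by push_cast; ring
    rw [b1]
    have b2 : C0 / c ^ 18 = C0 * 8192 ^ 18 * (2 * ((B:ℝ) + 1)) ^ 72 := by
      have hB0 : (0:ℝ) < 2 * ((B:ℝ) + 1) := by positivity
      rw [hc, div_pow, one_div, inv_pow, inv_pow, ← pow_mul]
      have e : (4 * 18 : ℕ) = 72 := by norm_num
      rw [e]
      generalize (2 * ((B:ℝ) + 1)) = X at hB0 ⊢
      have hX : X ^ 72 ≠ 0 := by positivity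
      field_simp
    have b3 : 2 * ((B:ℝ) + 1) ≤ 32 * (1 + 1 / δ) := by
      have : (0:ℝ) < 1 / δ := by positivity
      have e : 16 / δ = 16 * (1 / δ) := by ring
      rw [e] at hB2
      linarith
    have b4 : (2 * ((B:ℝ) + 1)) ^ 72 ≤ (32 * (1 + 1 / δ)) ^ 72 :=
      pow_le_pow_left₀ (by positivity) b3 72
    calc (3:ℝ) * 2 ^ (i0 + 1) ≤ 3 * (C0 / c ^ 18) := by linarith
      _ = 3 * (C0 * 8192 ^ 18) * (2 * ((B:ℝ) + 1)) ^ 72 := by rw [b2]; ring
      _ ≤ 3 * (C0 * 8192 ^ 18) * (32 * (1 + 1 / δ)) ^ 72 :=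
          mul_le_mul_of_nonneg_left b4 (by positivity)
      _ = 3 * C0 * 8192 ^ 18 * 32 ^ 72 * (1 + 1 / δ) ^ 72 := by rw [mul_pow]; ring

end Pool.Agent.Results.MP_7c2ef8_co.LacunaryPolynomial
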